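import Pool.Agent.MP_6a4325_al.H62.Base2

/-!
Row AL: abelian normal subgroups.
-/

set_option autoImplicit false

namespace Pool.Agent.MP_6a4325_al.H47

open Pool.Agent.MP_6a4325_al.H62

variable {G : Type} [Group G]

/-- the conclusion of the row -/
def Out (p : ℕ) (lva : Prop) (B : Subgroup G) : Prop :=
  ∃ N B₀ : Subgroup G, N.FiniteIndex ∧ B₀ ≤ B ∧ B₀ ≤ N ∧ B₀.relIndex B ≠ 0 ∧ Nz B₀ N ∧
    Rel p lva (B₀ ⊓ Subgroup.centralizer (N : Set G)) B₀ ∧
    Rel p lva (N ⊓ Subgroup.centralizer (B₀ : Set G)) N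

theorem triv {p : ℕ} {lva : Prop} (hR : RelApi p lva) {B N B₀ : Subgroup G} (hc : Cm B B)
    (hN : N.FiniteIndex) (h0 : B₀ ≤ B) (hi : B₀.relIndex B ≠ 0) (h : Cm B₀ N) : Out p lva B := by
  refine ⟨Subgroup.centralizer (B₀ : Set G), B₀,
    Subgroup.finiteIndex_of_le (H := N) fun g hg b hb => h b hb g hg, h0,
    fun a ha b hb => hc b (h0 hb) a (h0 ha), hi, fun k hk b hb => ?_, ?_, ?_⟩
  · rw [← hk b hb, mul_inv_cancel_right]
    exact hb
  · rw [inf_of_le_left (show B₀ ≤ Subgroup.centralizer _ from fun b hb g hg => (hg b hb).symm)]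
    exact hR.refl _ _
  · rw [inf_idem]
    exact hR.refl _ _

/-- the torsion of an abelian subgroup -/
def tor {B : Subgroup G} (h : Cm B B) : Subgroup G where
  carrier := {x | x ∈ B ∧ IsOfFinOrder x}
  mul_mem' := fun {a b} ha hb =>
    ⟨B.mul_mem ha.1 hb.1, (show Commute a b from h a ha.1 b hb.1).isOfFinOrder_mul ha.2 hb.2⟩
  one_mem' := ⟨B.one_mem, IsOfFinOrder.one⟩
  inv_mem' := fun ha => ⟨B.inv_mem ha.1, ha.2.inv⟩

theorem inf_rank (hL : SCLt) (hG : SGenC) (hA : SALT) {p : ℕ} [Fact p.Prime] {lva : Prop}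
    (hR : RelApi p lva) {B : Subgroup G} (hW : W (ZMod p) G) (hB : B.Normal) (hc : Cm B B)
    (hp : NoPT p B) (hr : ¬ FinRk B) : Out p lva B := by
  classical
  have hn : (tor hc).Normal := ⟨fun x hx g => ⟨hB.conj_mem x hx.1 g,
    (MulAut.conj g).toMonoidHom.isOfFinOrder hx.2⟩⟩
  let f := QuotientGroup.mk' (tor hc)
  have hf : ∀ x, f x = 1 ↔ x ∈ B ∧ IsOfFinOrder x := fun x => QuotientGroup.eq_one_iff x
  have h1 := hG p (G ⧸ tor hc) (hW.quot _) (B.map f)
    (hB.map f (QuotientGroup.mk'_surjective _))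
    (by
      rintro _ ⟨a, ha, rfl⟩ _ ⟨b, hb, rfl⟩
      rw [← map_mul, hc a ha b hb, map_mul])
    (by
      rintro _ ⟨b, hb, rfl⟩ h
      obtain ⟨m, hm, e⟩ := isOfFinOrder_iff_pow_eq_one.1 h
      rw [← map_pow, hf] at e
      exact (hf b).2 ⟨hb, e.2.of_pow hm.ne'⟩)
    (by
      rintro ⟨T, hT, h⟩
      choose s hs hs' using hT
      refine hr ⟨T.attach.image fun t => s t.1 t.2, fun t ht => ?_, fun b hb => ?_⟩
      · obtain ⟨u, -, rfl⟩ := Finset.mem_image.1 ht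
        exact hs _ _
      · obtain ⟨m, hm, h2⟩ := h (f b) ⟨b, hb, rfl⟩
        have h3 : Subgroup.closure (↑T : Set (G ⧸ tor hc)) ≤ (Subgroup.closure
            (↑(T.attach.image fun t => s t.1 t.2) : Set G) ⊓ B).map f :=
          (Subgroup.closure_le _).2 fun t ht => ⟨s t ht, ⟨Subgroup.subset_closure
            (Finset.mem_coe.2 (Finset.mem_image.2 ⟨⟨t, ht⟩, Finset.mem_attach _ _, rfl⟩)),
            hs t ht⟩, hs' t ht⟩
        obtain ⟨c, hc', e⟩ := h3 h2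
        have h4 : f (b ^ m * c⁻¹) = 1 := by rw [map_mul, map_inv, e, map_pow, mul_inv_cancel]
        obtain ⟨k, hk, e2⟩ := isOfFinOrder_iff_pow_eq_one.1 ((hf _).1 h4).2
        rw [(show Commute (b ^ m) c⁻¹ from
          hc _ (B.pow_mem hb m) _ (B.inv_mem hc'.2)).mul_pow, inv_pow, mul_inv_eq_one] at e2
        refine ⟨m * k, Nat.mul_pos hm hk, ?_⟩
        rw [pow_mul, e2]
        exact Subgroup.pow_mem _ hc'.1 k)
  obtain ⟨N, B₀, hN, h0, hi, h⟩ := hA p G B _ hB hc (hL p G hW B hB hc)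
    (finiteIndex_comap _ h1 f) fun g hg b hb => by
      have h2 : f (g * b * g⁻¹ * b⁻¹) = 1 := by
        rw [map_mul, map_mul, map_mul, ← hg (f b) ⟨b, hb, rfl⟩]
        simp
      exact hp.primeTo ((hf _).1 h2).1 ((hf _).1 h2).2
  exact triv hR hc hN h0 hi h

/-- the action of `N` on `B₀ / Z₀` -/
theorem exists_act {N B₀ Z₀ : Subgroup G} (hc : Cm B₀ B₀) (hnz : Nz B₀ N) (hZN : Cm Z₀ N) :
    ∃ (A : Type) (_ : CommGroup A) (π : B₀ →* A) (φ : N →* MulAut A), Function.Surjective π ∧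
      (∀ b, π b = 1 ↔ (b : G) ∈ Z₀) ∧
      ∀ (g : N) (b : B₀), φ g (π b) = π ⟨g * b * (g : G)⁻¹, hnz g g.2 b b.2⟩ := by
  let _ := hc.commGroup
  let Z := Z₀.subgroupOf B₀
  let c : N → B₀ →* B₀ := fun g =>
    { toFun := fun b => ⟨g * b * (g : G)⁻¹, hnz g g.2 b b.2⟩
      map_one' := Subtype.ext (by simp)
      map_mul' := fun a b => Subtype.ext (by simp) }
  have hcZ : ∀ g, Z ≤ Z.comap (c g) := fun g b hb => by
    change (g : G) * b * (g : G)⁻¹ ∈ Z₀
    rw [← hZN b hb g g.2, mul_inv_cancel_right]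
    exact hb
  let m : N → (B₀ ⧸ Z) →* (B₀ ⧸ Z) := fun g => QuotientGroup.map Z Z (c g) (hcZ g)
  have hm : ∀ g h a, m (g * h) a = m g (m h a) := fun g h a => by
    obtain ⟨b, rfl⟩ := QuotientGroup.mk_surjective a
    exact congrArg QuotientGroup.mk (Subtype.ext (by simp [c, mul_assoc]) : c (g * h) b = c g (c h b))
  have h1 : ∀ a, m 1 a = a := fun a => by
    obtain ⟨b, rfl⟩ := QuotientGroup.mk_surjective a
    exact congrArg QuotientGroup.mk (Subtype.ext (by simp [c]) : c 1 b = b)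
  let φ : N →* MulAut (B₀ ⧸ Z) :=
    { toFun := fun g =>
        { toFun := m g
          invFun := m g⁻¹
          left_inv := fun a => by rw [← hm, inv_mul_cancel, h1]
          right_inv := fun a => by rw [← hm, mul_inv_cancel, h1]
          map_mul' := (m g).map_mul }
      map_one' := MulEquiv.ext h1
      map_mul' := fun g h => MulEquiv.ext (hm g h) }
  exact ⟨B₀ ⧸ Z, inferInstance, QuotientGroup.mk' Z, φ, QuotientGroup.mk'_surjective Z,
    fun b => QuotientGroup.eq_one_iff b, fun g b => rfl⟩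

theorem tf_pow {A : Type} [CommGroup A] (h : Tf (⊤ : Subgroup A)) {a b : A} {m : ℕ} (hm : 0 < m)
    (e : a ^ m = b ^ m) : a = b :=
  mul_inv_eq_one.1 (h _ trivial (isOfFinOrder_iff_pow_eq_one.2
    ⟨m, hm, by rw [mul_pow, inv_pow, e, mul_inv_cancel]⟩))

theorem comm_tors {g b : G} {m : ℕ} (hm : 0 < m) (e : g ^ m * b ^ m = b ^ m * g ^ m)
    (h1 : Commute (g * b * g⁻¹ * b⁻¹) g) (h2 : Commute (g * b * g⁻¹ * b⁻¹) b) :
    IsOfFinOrder (g * b * g⁻¹ * b⁻¹) := by
  generalize hc : g * b * g⁻¹ * b⁻¹ = c at h1 h2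
  have h3 : ∀ k : ℕ, g ^ k * b * (g ^ k)⁻¹ = c ^ k * b := fun k => by
    induction k with
    | zero => simp
    | succ k ih =>
      have h4 : g ^ (k + 1) * b * (g ^ (k + 1))⁻¹ = g * (g ^ k * b * (g ^ k)⁻¹) * g⁻¹ := by
        rw [pow_succ']; group
      rw [h4, ih, ← mul_assoc, ← (h1.pow_left k).eq, pow_succ, ← hc]
      group
  have h5 : (c ^ m * b) ^ m = b ^ m := by
    rw [← h3, conj_pow, e, mul_inv_cancel_right]
  rw [(h2.pow_left m).mul_pow, mul_eq_right, ← pow_mul] at h5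
  exact isOfFinOrder_iff_pow_eq_one.2 ⟨m * m, Nat.mul_pos hm hm, h5⟩

theorem al : SLN → SCLt → SGenC → SALT → SAL1 → SMink → SDir → SSer → SRel → SAL := by
  intro hLN hL hG hA h1 hM hD hS hR p hp lva G _ B hH hB hc hpt hI
  classical
  change Out p lva B
  by_cases hr : FinRk B
  swap
  · exact inf_rank hL hG hA (hR p lva) hH.2.1 hB hc hpt hr
  have hO := hL p G hH.2.1 B hB hc
  obtain ⟨N, B₀, Z₀, U, hN, hBU, hUN, h0, hi, hnz, hZ, hZN, hiso, ⟨T, hT, hTg⟩, hU, hSU⟩ :=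
    h1 p G B hB hc hpt hr hO
  have hc0 : Cm B₀ B₀ := fun a ha b hb => hc a (h0 ha) b (h0 hb)
  obtain ⟨A, _, π, φ, hπ, hk, hφ⟩ := exists_act hc0 hnz hZN
  let f := φ.rangeRestrict
  have hf : ∀ g : N, f g = 1 ↔ (g : G) ∈ U := fun g => by
    rw [hU g g.2, Subtype.ext_iff]
    change φ g = 1 ↔ _
    have key : ∀ b : B₀, φ g (π b) = π b ↔ (g : G) * b * (g : G)⁻¹ * (b : G)⁻¹ ∈ Z₀ := fun b => by
      rw [hφ, ← mul_inv_eq_one, ← map_inv, ← map_mul, hk]
      rfl
    refine ⟨fun h b hb => (key ⟨b, hb⟩).1 (by rw [h]; rfl), fun h => MulEquiv.ext fun a => ?_⟩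
    obtain ⟨b, rfl⟩ := hπ a
    exact (key b).2 (h b b.2)
  have htf : Tf (⊤ : Subgroup A) := fun a _ h => by
    obtain ⟨b, rfl⟩ := hπ a
    obtain ⟨m, hm, e⟩ := isOfFinOrder_iff_pow_eq_one.1 h
    rw [← map_pow, hk] at e
    exact (hk b).2 (hiso b b.2 m hm e)
  let TA : Finset A := T.attach.image fun t => π ⟨t.1, hT t.1 t.2⟩
  have hg : ∀ a : A, ∃ j : ℕ, a ^ p ^ j ∈ Subgroup.closure (↑TA : Set A) := fun a => by
    obtain ⟨b, rfl⟩ := hπ a
    obtain ⟨j, hj⟩ := hTg b b.2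
    have h3 : Subgroup.closure (↑T : Set G) ⊔ Z₀ ≤
        ((Subgroup.closure (↑TA : Set A)).comap π).map B₀.subtype :=
      sup_le ((Subgroup.closure_le _).2 fun t ht => ⟨⟨t, hT t ht⟩, Subgroup.subset_closure
        (Finset.mem_coe.2 (Finset.mem_image.2 ⟨⟨t, ht⟩, Finset.mem_attach _ _, rfl⟩)), rfl⟩)
        fun z hz => ⟨⟨z, hZ hz⟩, by
          change π _ ∈ Subgroup.closure _
          rw [(hk ⟨z, hZ hz⟩).2 hz]
          exact one_mem _, rfl⟩
    obtain ⟨c, hc', e⟩ := h3 hj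
    refine ⟨j, ?_⟩
    rw [← map_pow, ← (Subtype.ext e : c = b ^ p ^ j)]
    exact hc'
  obtain ⟨L₁, hL₁, htL⟩ := hM p A φ.range φ.range.subtype φ.range.subtype_injective htf ⟨TA, hg⟩
  by_cases hl : lva
  · have hv := hH.2.2 hl
    have h2 : ∀ g : N, IsOfFinOrder (f g) := fun g => by
      choose m hm e using fun t : G => hv.pow_comm (g : G) t
      refine isOfFinOrder_iff_pow_eq_one.2 ⟨∏ t ∈ T, m t, Finset.prod_pos fun t _ => hm t, ?_⟩
      rw [← map_pow]
      refine Subtype.ext (MulEquiv.ext fun a => ?_)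
      change φ (g ^ ∏ t ∈ T, m t) a = a
      obtain ⟨j, hj⟩ := hg a
      refine tf_pow htf (pow_pos hp.out.pos j) ?_
      rw [← map_pow]
      refine (Subgroup.closure_le ((φ (g ^ ∏ t ∈ T, m t)).toMonoidHom.eqLocus
        (MonoidHom.id A))).2 (fun x hx => ?_) hj
      obtain ⟨t, -, rfl⟩ := Finset.mem_image.1 (Finset.mem_coe.1 hx)
      obtain ⟨k, hk'⟩ := Finset.dvd_prod_of_mem m t.2
      change φ _ _ = π _
      refine tf_pow htf (hm t.1) ?_
      rw [← map_pow, ← map_pow, hφ]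
      refine congrArg π (Subtype.ext ?_)
      change (g : G) ^ (∏ t ∈ T, m t) * t.1 ^ m t.1 * ((g : G) ^ (∏ t ∈ T, m t))⁻¹ = t.1 ^ m t.1
      rw [hk', pow_mul, ((show Commute _ _ from e t.1).pow_left k).eq, mul_inv_cancel_right]
    have h3 : U.FiniteIndex :=
      haveI := finiteIndex_map_subtype N hN _ (finiteIndex_comap L₁ hL₁ f)
      Subgroup.finiteIndex_of_le (H := (L₁.comap f).map N.subtype) (by
        rintro _ ⟨g, hg', rfl⟩
        exact (hf g).1 (htL _ hg' (h2 g)))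
    obtain ⟨N₂, B₂, hN₂, h4, h5, h6⟩ := hA p G B U hB hc hO h3 fun g hg' b hb => by
      refine hpt.primeTo (B.mul_mem (hB.conj_mem b hb g) (B.inv_mem hb)) ?_
      obtain ⟨n, hn, -, h7⟩ := Subgroup.exists_pow_mem_of_relIndex_ne_zero hi hb
      obtain ⟨m, hm, e⟩ := hv.pow_comm g (b ^ n)
      have h8 := (hU g (hUN hg')).1 hg' _ h7.1
      have h9 := comm_tors hm e (hZN _ h8 g (hUN hg')) (hZN _ h8 _ (hUN (hBU h7.2)))
      rw [← conj_pow, ← inv_pow, ← (show Commute (g * b * g⁻¹) b⁻¹ from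
        hc _ (hB.conj_mem b hb g) _ (B.inv_mem hb)).mul_pow] at h9
      exact h9.of_pow hn.ne'
    exact triv (hR p lva) hc hN₂ h4 h5 h6
  · obtain ⟨N₁, S, Z₁, hN₁, -, hZ₁, -, hpS, hcS, hZN₁, -⟩ := hI N φ.range f
      φ.rangeRestrict_surjective fun x hx => (hf x).2 (hBU hx)
    have hY : Ser p ⊥ (Z₁ ⊓ L₁) := hD p A φ.range φ.range.subtype φ.range.subtype_injective htf
      ⟨TA, hg⟩ (fun g a => by
        obtain ⟨g, rfl⟩ := φ.rangeRestrict_surjective g
        obtain ⟨b, rfl⟩ := hπ a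
        let s : ℤ → B₀ := fun n => ⟨(g ^ n : N) * b * ((g ^ n : N) : G)⁻¹, hnz _ (g ^ n).2 b b.2⟩
        have h2 : ((Subgroup.closure (Set.range s)).map B₀.subtype).FG := by
          refine hLN p G hH.1 hH.2.1 (Subgroup.closure (↑({(g : G), (b : G)} : Finset G) : Set G))
            ⟨_, rfl⟩ _ (Subgroup.map_le_iff_le_comap.2 ((Subgroup.closure_le _).2 ?_))
          rintro _ ⟨n, rfl⟩
          have hg' : (g : G) ^ n ∈ Subgroup.closure (↑({(g : G), (b : G)} : Finset G) : Set G) :=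
            Subgroup.zpow_mem _ (Subgroup.subset_closure (by simp)) n
          exact mul_mem (mul_mem hg' (Subgroup.subset_closure (by simp))) (inv_mem hg')
        have h3 := H7.fg_map (fg_of_map_inj _ B₀.subtype_injective h2) π
        rw [MonoidHom.map_closure, ← Set.range_comp] at h3
        convert h3 using 3
        funext n
        rw [← map_zpow]
        exact hφ _ _) _ fun x hx y hy => by
          obtain ⟨j, hj⟩ := hpS ⟨_, hcS x hx.1 y (hZ₁ hy.1)⟩
          have h2 := htL _ (mul_mem (mul_mem (mul_mem hx.2 hy.2) (inv_mem hx.2)) (inv_mem hy.2))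
            (isOfFinOrder_iff_pow_eq_one.2 ⟨_, pow_pos hp.out.pos j, congrArg Subtype.val hj⟩)
          rwa [mul_inv_eq_one, mul_inv_eq_iff_eq_mul] at h2
    have h2 := (hS p).map _ _ N.subtype _ _ ((hS p).comap _ _ f _ _
      (Relation.ReflTransGen.trans hY ((hS p).inf _ _ _ L₁ hZN₁)))
    have h3 : ((⊥ : Subgroup φ.range).comap f).map N.subtype = U := le_antisymm
      (by rintro _ ⟨g, hg', rfl⟩; exact (hf g).1 hg')
      fun g hg' => ⟨⟨g, hUN hg'⟩, (hf _).2 hg', rfl⟩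
    rw [h3] at h2
    have h4 : (((N₁ ⊓ L₁).comap f).map N.subtype).FiniteIndex :=
      finiteIndex_map_subtype N hN _ (finiteIndex_comap _ inferInstance f)
    have h5 : ((N₁ ⊓ L₁).comap f).map N.subtype ≤ N := Subgroup.map_subtype_le _
    generalize ((N₁ ⊓ L₁).comap f).map N.subtype = N' at h2 h4 h5
    have h6 := (hS p).le _ _ _ h2
    refine ⟨N', B₀, h4, h0, h0.trans (hBU.trans h6), hi, fun k hk' => hnz k (h5 hk'),
      ⟨(hS p).up _ Z₀ _ _ (le_inf hZ fun z hz g hg' => (hZN z hz g (h5 hg')).symm) inf_le_left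
        (fun k hk' x hx => ?_) ((hS p).ab _ _ _ T hZ (fun x hx y hy => ?_)
          (fun x hx => hiso x hx p hp.out.pos) hT hTg), fun l => absurd l hl⟩,
      ⟨?_, fun l => absurd l hl⟩⟩
    · rw [hc0 k hk' x hx.1, mul_inv_cancel_right]
      exact hx
    · rw [hc0 x hx y hy, mul_inv_cancel_right, mul_inv_cancel]
      exact one_mem _
    · have h7 : N' ⊓ Subgroup.centralizer (B₀ : Set G) = U ⊓ Subgroup.centralizer (B₀ : Set G) :=
        le_antisymm (fun g hg' => ⟨(hU g (h5 hg'.1)).2 fun b hb => by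
          rw [← hg'.2 b hb, mul_inv_cancel_right, mul_inv_cancel]
          exact one_mem _, hg'.2⟩) (inf_le_inf_right _ h6)
      rw [h7]
      exact Relation.ReflTransGen.trans hSU h2

end Pool.Agent.MP_6a4325_al.H47
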